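import Pool.Agent.T2H86.RH.Stm

set_option autoImplicit false

namespace Pool.Agent.T2H86.RH

open Finset MeasureTheory ProbabilityTheory Pool.Agent.T2H86.RC Pool.Agent.T2H86.RG

namespace BC4

lemma log3 : 1 < Real.log 3 := by
  rw [Real.lt_log_iff_exp_lt (by norm_num)]
  exact Real.exp_one_lt_d9.trans (by norm_num)

lemma log_gt {x : ℝ} (hx : 3 ≤ x) : 1 < Real.log x :=
  log3.trans_le (Real.log_le_log (by norm_num) hx)

lemma ll_pos {x : ℝ} (hx : 3 ≤ x) : 0 < Real.log (Real.log x) := Real.log_pos (log_gt hx)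

/-- the exponent -/
def ex (A a : ℕ) : ℕ := ((A + 2) ^ 2 + 1) ^ 2 + (4 * a + 4)

lemma ex_pos (A a : ℕ) : 1 ≤ ex A a := by
  unfold ex
  omega

lemma pair_le (A a Q j N : ℕ) (hQ : 3 ≤ Q) (hj : j ≤ A * Q ^ a) (hN : N ≤ Q) :
    Nat.pair Q (Nat.pair j N) ≤ Q ^ ex A a := by
  have hQ1 : 1 ≤ Q := by omega
  have h0 : 1 ≤ Q ^ (a + 1) := Nat.one_le_pow _ _ hQ1
  have h1 : Q ^ a ≤ Q ^ (a + 1) := Nat.pow_le_pow_right hQ1 (by omega)
  have h2 : Q ≤ Q ^ (a + 1) := Nat.le_self_pow (by omega) Q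
  have h3 : j ≤ A * Q ^ (a + 1) := hj.trans (Nat.mul_le_mul_left _ h1)
  have h4 : max j N + 1 ≤ (A + 2) * Q ^ (a + 1) := by
    have h5 : max j N ≤ (A + 1) * Q ^ (a + 1) := by
      apply max_le
      · nlinarith
      · nlinarith
    nlinarith
  have h6 : Nat.pair j N ≤ ((A + 2) * Q ^ (a + 1)) ^ 2 :=
    (Nat.pair_lt_max_add_one_sq j N).le.trans (Nat.pow_le_pow_left h4 2)
  have h7 : ((A + 2) * Q ^ (a + 1)) ^ 2 = (A + 2) ^ 2 * Q ^ (2 * a + 2) := by ring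
  rw [h7] at h6
  have g0 : 1 ≤ Q ^ (2 * a + 2) := Nat.one_le_pow _ _ hQ1
  have g1 : Q ≤ Q ^ (2 * a + 2) := Nat.le_self_pow (by omega) Q
  have g2 : 1 ≤ (A + 2) ^ 2 := Nat.one_le_pow _ _ (by omega)
  have h8 : max Q (Nat.pair j N) + 1 ≤ ((A + 2) ^ 2 + 1) * Q ^ (2 * a + 2) := by
    have h9 : max Q (Nat.pair j N) ≤ (A + 2) ^ 2 * Q ^ (2 * a + 2) := by
      apply max_le
      · nlinarith
      · exact h6
    nlinarith
  have h10 : Nat.pair Q (Nat.pair j N) ≤ (((A + 2) ^ 2 + 1) * Q ^ (2 * a + 2)) ^ 2 :=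
    (Nat.pair_lt_max_add_one_sq _ _).le.trans (Nat.pow_le_pow_left h8 2)
  have h11 : (((A + 2) ^ 2 + 1) * Q ^ (2 * a + 2)) ^ 2 = ((A + 2) ^ 2 + 1) ^ 2 * Q ^ (4 * a + 4) := by
    ring
  rw [h11] at h10
  refine h10.trans ?_
  have h12 : ((A + 2) ^ 2 + 1) ^ 2 ≤ Q ^ (((A + 2) ^ 2 + 1) ^ 2) :=
    (Nat.lt_pow_self (by omega : 1 < Q)).le
  calc ((A + 2) ^ 2 + 1) ^ 2 * Q ^ (4 * a + 4) ≤ Q ^ (((A + 2) ^ 2 + 1) ^ 2) * Q ^ (4 * a + 4) :=
        Nat.mul_le_mul_right _ h12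
    _ = Q ^ ex A a := by
        unfold ex
        exact (pow_add Q _ _).symm

lemma sqrt_bd (A a : ℕ) (Q x : ℕ) (hQ : 3 ≤ Q) (hQx : Q ≤ x) (hx : x ≤ Q ^ ex A a) :
    Real.sqrt (Real.log x * Real.log (Real.log x)) ≤
      Real.sqrt ((ex A a : ℝ) * (Real.log (ex A a : ℝ) / Real.log (Real.log 3) + 1)) *
        Real.sqrt (Real.log Q * Real.log (Real.log Q)) := by
  have hQr : (3 : ℝ) ≤ Q := by exact_mod_cast hQ
  have hQxr : (Q : ℝ) ≤ x := by exact_mod_cast hQx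
  have hxr : (x : ℝ) ≤ (Q : ℝ) ^ ex A a := by exact_mod_cast hx
  have hb : (1 : ℝ) ≤ ex A a := by exact_mod_cast ex_pos A a
  obtain ⟨b, hbb⟩ : ∃ b : ℝ, b = (ex A a : ℝ) := ⟨_, rfl⟩
  have h1 : Real.log x ≤ b * Real.log Q := by
    have := Real.log_le_log (by linarith) hxr
    rw [Real.log_pow] at this
    rw [hbb]
    exact this
  rw [← hbb] at hb ⊢
  have h2 : 1 < Real.log Q := log_gt hQr
  have h3 : 1 < Real.log x := log_gt (hQr.trans hQxr)
  have h4 : Real.log (Real.log x) ≤ Real.log b + Real.log (Real.log Q) := by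
    rw [← Real.log_mul (by linarith) (by linarith)]
    exact Real.log_le_log (by linarith) h1
  have h5 : 0 < Real.log (Real.log 3) := ll_pos le_rfl
  have h6 : Real.log (Real.log 3) ≤ Real.log (Real.log Q) :=
    Real.log_le_log (by linarith [log3]) (Real.log_le_log (by norm_num) hQr)
  have h7 : 0 ≤ Real.log b := Real.log_nonneg hb
  have h8 : Real.log b ≤ Real.log b / Real.log (Real.log 3) * Real.log (Real.log Q) := by
    rw [div_mul_eq_mul_div, le_div_iff₀ h5]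
    exact mul_le_mul_of_nonneg_left h6 h7
  have h9 : Real.log (Real.log x) ≤
      (Real.log b / Real.log (Real.log 3) + 1) * Real.log (Real.log Q) := by
    rw [add_mul, one_mul]
    linarith
  have h10 : 0 ≤ Real.log (Real.log x) := (ll_pos (hQr.trans hQxr)).le
  have h11 : 0 ≤ b * (Real.log b / Real.log (Real.log 3) + 1) := by positivity
  rw [← Real.sqrt_mul h11]
  apply Real.sqrt_le_sqrt
  calc Real.log x * Real.log (Real.log x) ≤
      (b * Real.log Q) * ((Real.log b / Real.log (Real.log 3) + 1) * Real.log (Real.log Q)) :=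
        mul_le_mul h1 h9 h10 (by positivity)
    _ = _ := by ring

end BC4

open BC4 in
theorem pBC4 (h : S_BC3) : S_BC4 := by
  intro Ω ι _ μ _ G cd hG hmom hL hrep
  obtain ⟨C, hC0, hC⟩ := hmom
  obtain ⟨K, hK, hL⟩ := hL
  obtain ⟨A, a, hrep⟩ := hrep
  choose rep hrep using hrep
  obtain ⟨F, hF⟩ : ∃ F : ℕ → ℝ → Ω → ℂ, F = fun x t ω =>
    G (rep x.unpair.1 x.unpair.2.unpair.1) (max x.unpair.2.unpair.2 1) t ω := ⟨_, rfl⟩
  have hmx : ∀ x : ℕ, 1 ≤ x → max x.unpair.2.unpair.2 1 ≤ x := fun x hx =>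
    max_le ((Nat.unpair_right_le _).trans (Nat.unpair_right_le _)) hx
  have hm1 : ∀ x : ℕ, 1 ≤ max x.unpair.2.unpair.2 1 := fun x => le_max_right _ _
  have h1 := h μ F (fun x t => by rw [hF]; exact hG _ _ _)
    ⟨C, hC0, fun k x hk hx t => by
      rw [hF]
      refine (hC _ k _ hk (hm1 x) t).trans ?_
      rw [Real.exp_le_exp]
      refine mul_le_mul_of_nonneg_left ?_ (by positivity)
      have e1 : ((max x.unpair.2.unpair.2 1 : ℕ) : ℝ) ≤ x := by exact_mod_cast hmx x hx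
      have e2 : (0 : ℝ) ≤ ((max x.unpair.2.unpair.2 1 : ℕ) : ℝ) := Nat.cast_nonneg _
      have e3 : Real.log (((max x.unpair.2.unpair.2 1 : ℕ) : ℝ) + 16) ≤ Real.log ((x : ℝ) + 16) :=
        Real.log_le_log (by linarith) (by linarith)
      refine Real.log_le_log ?_ e3
      exact Real.log_pos (by linarith)⟩
    ⟨K, hK, fun x hx ω => by
      rw [hF]
      have e1 : ((max x.unpair.2.unpair.2 1 : ℕ) : ℝ) ≤ x := by exact_mod_cast hmx x hx
      have e2 : (0 : ℝ) ≤ ((max x.unpair.2.unpair.2 1 : ℕ) : ℝ) := Nat.cast_nonneg _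
      have e3 : K * ((max x.unpair.2.unpair.2 1 : ℕ) : ℝ) ^ 5 ≤ K * (x : ℝ) ^ 5 :=
        mul_le_mul_of_nonneg_left (pow_le_pow_left₀ e2 e1 5) hK
      obtain ⟨g1, g2⟩ := hL (rep x.unpair.1 x.unpair.2.unpair.1) _ (hm1 x) ω
      exact ⟨fun t t' => (g1 t t').trans (mul_le_mul_of_nonneg_right e3 (abs_nonneg _)),
        fun t => (g2 t).trans e3⟩⟩
  filter_upwards [h1] with ω hω
  obtain ⟨C1, hC1⟩ := hω 1 one_pos
  refine ⟨max C1 0 *
    Real.sqrt ((ex A a : ℝ) * (Real.log (ex A a : ℝ) / Real.log (Real.log 3) + 1)),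
    fun Q hQ i hi N hN1 hN t ht => ?_⟩
  obtain ⟨j, hj, hij⟩ := hrep Q i hi
  have hQx : Q ≤ Nat.pair Q (Nat.pair j N) := Nat.left_le_pair _ _
  have hx3 : 3 ≤ Nat.pair Q (Nat.pair j N) := hQ.trans hQx
  have ht' : |t| ≤ ((Nat.pair Q (Nat.pair j N) : ℕ) : ℝ) ^ (1 : ℝ) := by
    rw [Real.rpow_one]
    exact ht.trans (by exact_mod_cast hQx)
  have h2 := hC1 _ hx3 t ht'
  have h3 : F (Nat.pair Q (Nat.pair j N)) t ω = G i N t ω := by
    rw [hF]
    simp only [Nat.unpair_pair]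
    rw [max_eq_left hN1, hij]
  rw [h3] at h2
  refine h2.trans (Real.exp_le_exp.2 ?_)
  have h4 := sqrt_bd A a Q _ hQ hQx (pair_le A a Q j N hQ hj hN)
  have h5 : C1 * Real.sqrt (Real.log ((Nat.pair Q (Nat.pair j N) : ℕ) : ℝ) *
      Real.log (Real.log ((Nat.pair Q (Nat.pair j N) : ℕ) : ℝ))) ≤
      max C1 0 * Real.sqrt (Real.log ((Nat.pair Q (Nat.pair j N) : ℕ) : ℝ) *
      Real.log (Real.log ((Nat.pair Q (Nat.pair j N) : ℕ) : ℝ))) :=
    mul_le_mul_of_nonneg_right (le_max_left _ _) (Real.sqrt_nonneg _)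
  refine h5.trans ?_
  rw [mul_assoc]
  exact mul_le_mul_of_nonneg_left h4 (le_max_right _ _)

end Pool.Agent.T2H86.RH
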