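import Pool.Agent.T2H86.RH.Stm

/-!
# RH, package LN4 (helper77); `sqrt_llog` is copied from `Pool/Agent/T2H95/LF/LIN.lean`
-/

set_option autoImplicit false

namespace Pool.Agent.T2H86.RH

namespace LN4

/-- `√(L log L) = o(L)`, quantitative form. -/
theorem sqrt_llog {C β : ℝ} (hβ : 0 < β) : ∃ K : ℝ, ∀ L : ℝ, 1 ≤ L →
    C * Real.sqrt (L * Real.log L) ≤ β * L + K := by
  -- `|C| √(L log L) ≤ (β/2)·L + ...`: use `log L ≤ L^(1/2) · 2`, so `√(L log L) ≤ √2 · L^(3/4)`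
  refine ⟨27 * (|C| * 2) ^ 4 / (4 * (β) ^ 3) / 64 + (|C| * 2) ^ 4 / β ^ 3, ?_⟩
  intro L hL
  have hL0 : 0 ≤ L := by linarith
  set s := Real.sqrt (Real.sqrt L) with hs
  have hs0 : 0 ≤ s := Real.sqrt_nonneg _
  have hs2 : s ^ 2 = Real.sqrt L := Real.sq_sqrt (Real.sqrt_nonneg _)
  have hs4 : s ^ 4 = L := by
    rw [show s ^ 4 = (s ^ 2) ^ 2 by ring, hs2, Real.sq_sqrt hL0]
  have hLpos : 0 < L := by linarith
  have hsqL : 0 < Real.sqrt L := Real.sqrt_pos.2 hLpos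
  have hlog : Real.log L ≤ 2 * s ^ 2 := by
    have h1 : Real.log L = 2 * Real.log (Real.sqrt L) := by
      rw [Real.log_sqrt hL0]; ring
    rw [h1, hs2]
    have := Real.log_le_self hsqL.le
    linarith
  have hmain : Real.sqrt (L * Real.log L) ≤ 2 * s ^ 3 := by
    apply Real.sqrt_le_iff.2
    refine ⟨by positivity, ?_⟩
    have h0 : 0 ≤ s ^ 6 := by positivity
    calc L * Real.log L ≤ L * (2 * s ^ 2) := by gcongr
      _ = 2 * s ^ 6 := by rw [← hs4]; ring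
      _ ≤ (2 * s ^ 3) ^ 2 := by nlinarith
  have hC : C * Real.sqrt (L * Real.log L) ≤ (|C| * 2) * s ^ 3 := by
    calc C * Real.sqrt (L * Real.log L) ≤ |C| * Real.sqrt (L * Real.log L) := by
          apply mul_le_mul_of_nonneg_right (le_abs_self C) (Real.sqrt_nonneg _)
      _ ≤ |C| * (2 * s ^ 3) := by gcongr
      _ = _ := by ring
  refine hC.trans ?_
  set D := |C| * 2 with hD
  have hD0 : 0 ≤ D := by positivity
  rw [← hs4]
  -- D s^3 ≤ β s^4 + D^4/β^3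
  have key : D * s ^ 3 ≤ β * s ^ 4 + D ^ 4 / β ^ 3 := by
    by_cases h : D ≤ β * s
    · have : D * s ^ 3 ≤ β * s * s ^ 3 := by gcongr
      have h2 : 0 ≤ D ^ 4 / β ^ 3 := by positivity
      nlinarith
    · push Not at h
      have hsD : s ≤ D / β := by
        rw [le_div_iff₀ hβ]
        linarith
      have h2 : D * s ^ 3 ≤ D * (D / β) ^ 3 := by gcongr
      have h3 : D * (D / β) ^ 3 = D ^ 4 / β ^ 3 := by
        field_simp
      have h4 : 0 ≤ β * s ^ 4 := by positivity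
      linarith
  have h5 : 0 ≤ 27 * D ^ 4 / (4 * β ^ 3) / 64 := by positivity
  linarith

end LN4

open LN4 in
theorem pLN4 : S_LN4 := by
  intro C A β hA hβ
  obtain ⟨m, hm⟩ : ∃ m : ℝ, m = max A 1 := ⟨_, rfl⟩
  have hm1 : 1 ≤ m := by rw [hm]; exact le_max_right _ _
  have hmA : A ≤ m := by rw [hm]; exact le_max_left _ _
  have hm0 : 0 < m := by linarith
  obtain ⟨K, hK⟩ := sqrt_llog (C := C) (β := β / m) (by positivity)
  refine ⟨Real.exp (β / m * Real.log 4 + K), fun d hd => ?_⟩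
  have hd1 : (1 : ℝ) ≤ d := by exact_mod_cast hd
  have hd0 : (0 : ℝ) < d := by linarith
  have hdm : 1 ≤ (d : ℝ) ^ m := Real.one_le_rpow hd1 hm0.le
  have hdd : (d : ℝ) ≤ (d : ℝ) ^ m := by
    calc (d : ℝ) = (d : ℝ) ^ (1 : ℝ) := (Real.rpow_one _).symm
      _ ≤ _ := Real.rpow_le_rpow_of_exponent_le hd1 hm1
  have hdA : (d : ℝ) ^ A ≤ (d : ℝ) ^ m := Real.rpow_le_rpow_of_exponent_le hd1 hmA
  obtain ⟨Q, hQ⟩ : ∃ Q : ℕ, Q = ⌈3 * (d : ℝ) ^ m⌉₊ := ⟨_, rfl⟩
  have hQ1 : 3 * (d : ℝ) ^ m ≤ Q := by rw [hQ]; exact Nat.le_ceil _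
  have hQ2 : (Q : ℝ) ≤ 4 * (d : ℝ) ^ m := by
    have := (Nat.ceil_lt_add_one (by positivity : 0 ≤ 3 * (d : ℝ) ^ m)).le
    rw [hQ]
    linarith
  have hQ3 : (3 : ℝ) ≤ Q := by linarith
  refine ⟨Q, by exact_mod_cast hQ3, ?_, by linarith, ?_⟩
  · have : (d : ℝ) ≤ (Q : ℝ) := by linarith
    exact_mod_cast this
  · have hL1 : 1 ≤ Real.log Q := by
      rw [Real.le_log_iff_exp_le (by linarith)]
      have := Real.exp_one_lt_d9
      linarith
    have hL2 : Real.log Q ≤ Real.log 4 + m * Real.log d := by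
      calc Real.log Q ≤ Real.log (4 * (d : ℝ) ^ m) := Real.log_le_log (by linarith) hQ2
        _ = _ := by rw [Real.log_mul (by norm_num) (by positivity), Real.log_rpow hd0]
    have h1 := hK (Real.log Q) hL1
    have h2 : β / m * Real.log Q ≤ β / m * (Real.log 4 + m * Real.log d) :=
      mul_le_mul_of_nonneg_left hL2 (by positivity)
    have h3 : β / m * (Real.log 4 + m * Real.log d) = β / m * Real.log 4 + β * Real.log d := by
      field_simp
    have h4 : (d : ℝ) ^ β = Real.exp (β * Real.log d) := by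
      rw [Real.rpow_def_of_pos hd0, mul_comm]
    rw [h4, ← Real.exp_add, Real.exp_le_exp]
    linarith

end Pool.Agent.T2H86.RH
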