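import Pool.Agent.T2H86.RH.Stm

set_option autoImplicit false

namespace Pool.Agent.T2H86.RH

open Finset MeasureTheory ProbabilityTheory NumberField IsDedekindDomain Pool.Agent.T2H86.RC Pool.Agent.T2H86.RG

theorem pMDL : S_MDL := by
  intro P Ω _ μ _ X hX χ hχ
  refine ⟨fun p => (hX.meas p).mul_const _, ?_, fun p => ?_, fun p ω => ?_⟩
  · have h := hX.indep.comp (fun p (x : ℝ) => x * χ p) (fun p => measurable_id.mul_const _)
    exact h
  · have hm : Measurable (fun x : ℝ => x * χ p) := measurable_id.mul_const _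
    have e1 : μ.map (fun ω => X p ω * χ p) = (μ.map (X p)).map (fun x : ℝ => x * χ p) := by
      rw [Measure.map_map hm (hX.meas p)]
      rfl
    have e2 : μ.map (fun ω => -(X p ω * χ p)) = (μ.map (fun ω => -X p ω)).map (fun x : ℝ => x * χ p) := by
      have hn : Measurable (fun ω => -X p ω) := (hX.meas p).neg
      rw [Measure.map_map hm hn]
      congr 1
      funext ω
      simp
    rw [e1, e2, hX.symm p]
  · rw [abs_mul]
    exact mul_le_one₀ (hX.bdd p ω) (abs_nonneg _) (hχ p)

end Pool.Agent.T2H86.RH
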