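import Pool.Agent.T2H86.RH.Stm

set_option autoImplicit false

namespace Pool.Agent.T2H86.RH

open Finset MeasureTheory ProbabilityTheory Pool.Agent.T2H86.RC Pool.Agent.T2H86.RG

theorem pMO4 (hFIN : S_FIN) (hMUL : S_MUL) (hBOX : S_BOX) (hPRD : S_PRD) (hMON : S_MON)
    (hIMP : S_IMP) (hLO3 : S_LO3) (hSU3 : S_SU3) : S_MO4 := by
  intro P q hq lam hl
  obtain ⟨⟨V, hV0, hV⟩, C', hC'0, hC'⟩ := hSU3 q hq lam hl
  obtain ⟨C, hC0, hC⟩ := hLO3 V hV0
  obtain ⟨hfin, hsup, hpos, _⟩ := hFIN q (hIMP.1 q hq)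
  refine ⟨C * C', by positivity, ?_⟩
  intro Ω _ μ _ X hX k x hk hx t
  classical
  set I : Finset (P →₀ ℕ) := (hfin x).toFinset with hI
  set s : Finset P := (hq.finite x).toFinset with hs
  set J : Finset (P →₀ ℕ) := s.finsupp (fun _ => range (x + 1)) with hJ
  have hIJ : I ⊆ J := by
    intro n hn
    have hn' : norm q n ≤ x := by simpa [hI] using hn
    rw [hJ, Finset.mem_finsupp_iff]
    refine ⟨fun p hp => ?_, fun p _ => ?_⟩
    · rw [hs, Set.Finite.mem_toFinset]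
      exact (hsup x n hn').1 p hp
    · rw [Finset.mem_range]
      have := (hsup x n hn').2 p
      omega
  have hcs : ∀ χ : P → ℝ, centralSum q lam χ x t =
      ∑ n ∈ I, (lam n * (norm q n : ℂ) ^ (-(1 / 2 : ℂ) - t * Complex.I)) * (chi χ n : ℂ) := by
    intro χ
    have h1 := finsum_mem_eq_finite_toFinset_sum
      (fun n : P →₀ ℕ => lam n * (chi χ n : ℂ) * (norm q n : ℂ) ^ (-(1 / 2 : ℂ) - t * Complex.I))
      (hfin x)
    unfold centralSum
    rw [hI]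
    refine Eq.trans h1 (Finset.sum_congr rfl fun n _ => ?_)
    ring
  have hnorm : ∀ n : P →₀ ℕ, ‖lam n * (norm q n : ℂ) ^ (-(1 / 2 : ℂ) - t * Complex.I)‖ =
      cc q lam n := by
    intro n
    rw [norm_mul, Complex.norm_natCast_cpow_of_pos (hpos n), cc]
    congr 2
    simp
  have hb0 : ∀ (p : P) (j : ℕ), 0 ≤ bb q lam p j := fun p j => by
    unfold bb; positivity
  have hc0 : ∀ n : P →₀ ℕ, 0 ≤ cc q lam n := fun n => by
    unfold cc; positivity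
  have h1 : ∫ ω, ‖centralSum q lam (fun p => X p ω) x t‖ ^ (2 * k) ∂μ ≤
      ∫ ω, (∑ n ∈ J, cc q lam n * chi (fun p => X p ω) n) ^ (2 * k) ∂μ := by
    have h2 := hMON μ X hX k I J hIJ
      (fun n => lam n * (norm q n : ℂ) ^ (-(1 / 2 : ℂ) - t * Complex.I)) (cc q lam)
      (fun n _ => (hnorm n).le) (fun n _ => hc0 n)
    simpa only [hcs] using h2
  have h3 : ∀ y : P → ℝ, ∑ n ∈ J, cc q lam n * chi y n =
      ∏ p ∈ s, (∑ j ∈ range (x + 1), bb q lam p j * y p ^ j) := by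
    intro y
    rw [hBOX s x (bb q lam) y]
    refine Finset.sum_congr rfl fun n hn => ?_
    rw [Finset.mem_finsupp_iff] at hn
    rw [(hMUL q (hIMP.1 q hq) lam (hIMP.2 q lam hl) n s hn.1).2]
  have h4 : ∫ ω, (∑ n ∈ J, cc q lam n * chi (fun p => X p ω) n) ^ (2 * k) ∂μ =
      ∏ p ∈ s, ∫ ω, (∑ j ∈ range (x + 1), bb q lam p j * X p ω ^ j) ^ (2 * k) ∂μ := by
    rw [← hPRD μ X hX s (fun p y => (∑ j ∈ range (x + 1), bb q lam p j * y ^ j) ^ (2 * k))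
      (fun p => by fun_prop)]
    congr 1
    funext ω
    rw [h3, ← Finset.prod_pow]
  have h5 : ∀ p ∈ s, ∫ ω, (∑ j ∈ range (x + 1), bb q lam p j * X p ω ^ j) ^ (2 * k) ∂μ ≤
      Real.exp (C * (k : ℝ) ^ 2 * (bb q lam p 1 ^ 2 + ∑ j ∈ Icc 2 x, bb q lam p j)) := by
    intro p _
    have hb00 : bb q lam p 0 = 1 := by
      unfold bb
      rw [Finsupp.single_zero, hl.one]
      simp
    exact hC μ (X p) (hX.meas p) (hX.symm p) (hX.bdd p) k x (bb q lam p) hk hx (hb0 p) hb00 (hV p x)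
  have h7 : ∏ p ∈ s, ∫ ω, (∑ j ∈ range (x + 1), bb q lam p j * X p ω ^ j) ^ (2 * k) ∂μ ≤
      ∏ p ∈ s, Real.exp (C * (k : ℝ) ^ 2 * (bb q lam p 1 ^ 2 + ∑ j ∈ Icc 2 x, bb q lam p j)) := by
    refine Finset.prod_le_prod (fun p _ => ?_) h5
    refine integral_nonneg fun ω => ?_
    exact (even_two_mul k).pow_nonneg _
  rw [← Real.exp_sum, ← Finset.mul_sum] at h7
  have h8 := hC' x x s (fun p hp => by
    rw [hs, Set.Finite.mem_toFinset] at hp
    exact hp)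
  have h9 : C * (k : ℝ) ^ 2 * ∑ p ∈ s, (bb q lam p 1 ^ 2 + ∑ j ∈ Icc 2 x, bb q lam p j) ≤
      C * C' * (k : ℝ) ^ 2 * Real.log (Real.log (x + 16)) := by
    have h10 := mul_le_mul_of_nonneg_left h8 (by positivity : (0 : ℝ) ≤ C * (k : ℝ) ^ 2)
    calc _ ≤ _ := h10
      _ = _ := by ring
  calc ∫ ω, ‖centralSum q lam (fun p => X p ω) x t‖ ^ (2 * k) ∂μ
      ≤ _ := h1
    _ = _ := h4
    _ ≤ _ := h7
    _ ≤ _ := Real.exp_le_exp.mpr h9

end Pool.Agent.T2H86.RH
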