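import Pool.Agent.T2H86.RH.Stm
import Pool.Agent.T2H95.LF.HARM

/-! # PR2: `∑ (N I)^(-σ) ≤ C / (σ - 1)` -/

set_option autoImplicit false

namespace Pool.Agent.T2H86.RH

open Finset MeasureTheory ProbabilityTheory NumberField IsDedekindDomain Pool.Agent.T2H86.RC Pool.Agent.T2H86.RG

namespace PR2

theorem geo {x : ℝ} (h0 : 0 < x) (h1 : x ≤ 1) (M : ℕ) :
    ∑ i ∈ range M, ((1 / 2 : ℝ) ^ x) ^ i ≤ 2 / x := by
  have hb : (1 / 2 : ℝ) ^ x ≤ 1 - x / 2 := by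
    have := rpow_one_add_le_one_add_mul_self (s := (-(1 / 2) : ℝ)) (by norm_num) h0.le h1
    have e1 : (1 + -(1 / 2) : ℝ) = 1 / 2 := by norm_num
    rw [e1] at this
    linarith
  have hr0 : 0 ≤ (1 / 2 : ℝ) ^ x := Real.rpow_nonneg (by norm_num) _
  have hr1 : (1 / 2 : ℝ) ^ x < 1 := by linarith
  have h2 : ∑ i ∈ range M, ((1 / 2 : ℝ) ^ x) ^ i ≤ (1 - (1 / 2 : ℝ) ^ x)⁻¹ := by
    rw [← tsum_geometric_of_lt_one hr0 hr1]
    exact (summable_geometric_of_lt_one hr0 hr1).sum_le_tsum _ (fun i _ => pow_nonneg hr0 i)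
  refine h2.trans ?_
  rw [inv_le_comm₀ (by linarith) (by positivity), inv_div]
  linarith

end PR2

theorem pPR2 : S_PR2 := by
  intro F _ _
  classical
  obtain ⟨C, hC1, hC⟩ := Pool.Agent.T2H95.LF.HARM.card_ball F
  refine ⟨4 * C, by linarith, ?_⟩
  intro σ hσ1 hσ2 T hT
  set g : Ideal (𝓞 F) → ℕ := fun I => Nat.log 2 (Ideal.absNorm I) with hg
  set M : ℕ := (T.sup g) + 1 with hM
  have hmaps : ∀ I ∈ T, g I ∈ range M := by
    intro I hI
    rw [mem_range, hM]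
    exact Nat.lt_succ_of_le (Finset.le_sup (f := g) hI)
  rw [← Finset.sum_fiberwise_of_maps_to hmaps]
  have hpos : ∀ I ∈ T, 1 ≤ Ideal.absNorm I := fun I hI =>
    Pool.Agent.T2H95.LF.HARM.absNorm_pos F (hT I hI)
  have hfib : ∀ i ∈ range M, ∑ I ∈ T with g I = i, (Ideal.absNorm I : ℝ) ^ (-σ) ≤
      2 * C * ((1 / 2 : ℝ) ^ (σ - 1)) ^ i := by
    intro i _
    have h1 : ∀ I ∈ T.filter (fun I => g I = i), (Ideal.absNorm I : ℝ) ^ (-σ) ≤ ((2 : ℝ) ^ i) ^ (-σ) := by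
      intro I hI
      rw [mem_filter] at hI
      have h2 : 2 ^ i ≤ Ideal.absNorm I := by
        rw [← hI.2]
        exact Nat.pow_log_le_self 2 (by have := hpos I hI.1; omega)
      have h3 : (2 : ℝ) ^ i ≤ (Ideal.absNorm I : ℝ) := by exact_mod_cast h2
      exact Real.rpow_le_rpow_of_nonpos (by positivity) h3 (by linarith)
    have h2 : (T.filter (fun I => g I = i)) ⊆ Pool.Agent.T2H95.LF.ball F (2 ^ (i + 1)) := by
      intro I hI
      rw [mem_filter] at hI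
      rw [Pool.Agent.T2H95.LF.mem_ball]
      refine ⟨hT I hI.1, ?_⟩
      rw [← hI.2]
      exact (Nat.lt_pow_succ_log_self (by norm_num) _).le
    have h3 : ((T.filter (fun I => g I = i)).card : ℝ) ≤ C * 2 ^ (i + 1) := by
      have h4 := hC (2 ^ (i + 1)) Nat.one_le_two_pow
      push_cast at h4
      refine le_trans ?_ h4
      exact_mod_cast Finset.card_le_card h2
    have h5 : 0 ≤ ((2 : ℝ) ^ i) ^ (-σ) := by positivity
    calc ∑ I ∈ T with g I = i, (Ideal.absNorm I : ℝ) ^ (-σ)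
        ≤ (T.filter (fun I => g I = i)).card • ((2 : ℝ) ^ i) ^ (-σ) := Finset.sum_le_card_nsmul _ _ _ h1
      _ = ((T.filter (fun I => g I = i)).card : ℝ) * ((2 : ℝ) ^ i) ^ (-σ) := by rw [nsmul_eq_mul]
      _ ≤ (C * 2 ^ (i + 1)) * ((2 : ℝ) ^ i) ^ (-σ) := mul_le_mul_of_nonneg_right h3 h5
      _ = 2 * C * ((1 / 2 : ℝ) ^ (σ - 1)) ^ i := by
        have e1 : ((1 / 2 : ℝ) ^ (σ - 1)) ^ i = (2 : ℝ) ^ i * ((2 : ℝ) ^ i) ^ (-σ) := by
          have a1 : ((1 / 2 : ℝ) ^ (σ - 1)) ^ i = (2 : ℝ) ^ ((1 - σ) * i) := by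
            rw [one_div, Real.inv_rpow (by norm_num), ← Real.rpow_neg (by norm_num), Real.rpow_mul_natCast (by norm_num)]
            congr 2
            ring
          have a2 : ((2 : ℝ) ^ i) ^ (-σ) = (2 : ℝ) ^ ((i : ℝ) * (-σ)) := by
            rw [Real.rpow_mul (by norm_num), Real.rpow_natCast]
          have a3 : (2 : ℝ) ^ i = (2 : ℝ) ^ (i : ℝ) := (Real.rpow_natCast _ _).symm
          rw [a1, a2, a3, ← Real.rpow_add (by norm_num)]
          congr 1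
          ring
        rw [e1, pow_succ]
        ring
  calc ∑ i ∈ range M, ∑ I ∈ T with g I = i, (Ideal.absNorm I : ℝ) ^ (-σ)
      ≤ ∑ i ∈ range M, 2 * C * ((1 / 2 : ℝ) ^ (σ - 1)) ^ i := Finset.sum_le_sum hfib
    _ = 2 * C * ∑ i ∈ range M, ((1 / 2 : ℝ) ^ (σ - 1)) ^ i := by rw [Finset.mul_sum]
    _ ≤ 2 * C * (2 / (σ - 1)) :=
        mul_le_mul_of_nonneg_left (PR2.geo (by linarith) (by linarith) M) (by linarith)
    _ = 4 * C / (σ - 1) := by ring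

end Pool.Agent.T2H86.RH
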