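import Pool.Agent.T2H86.RH.Stm

/-! # PR3: the primes of a number field have `∑ 1 / N v = O(log log x)` -/

set_option autoImplicit false

namespace Pool.Agent.T2H86.RH

open Finset MeasureTheory ProbabilityTheory NumberField IsDedekindDomain Pool.Agent.T2H86.RC Pool.Agent.T2H86.RG

namespace PR3

theorem exp_half_le {u : ℝ} (h0 : 0 ≤ u) (h1 : u ≤ 1) : Real.exp (u / 2) ≤ 1 + u := by
  have h2 : 1 - u / 2 ≤ Real.exp (-(u / 2)) := Real.one_sub_le_exp_neg _
  have h3 : 0 < Real.exp (u / 2) := Real.exp_pos _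
  have h4 : Real.exp (-(u / 2)) * Real.exp (u / 2) = 1 := by
    rw [← Real.exp_add]; simp
  have h5 : (1 - u / 2) * Real.exp (u / 2) ≤ 1 := (mul_le_mul_of_nonneg_right h2 h3.le).trans h4.le
  have h6 : 1 ≤ (1 + u) * (1 - u / 2) := by nlinarith
  have h7 : 0 < 1 - u / 2 := by linarith
  by_contra hc
  push Not at hc
  have h8 : (1 - u / 2) * (1 + u) < (1 - u / 2) * Real.exp (u / 2) := mul_lt_mul_of_pos_left hc h7
  linarith

theorem prod_inj (F : Type) [Field F] [NumberField F] (T T' : Finset (HeightOneSpectrum (𝓞 F)))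
    (h : ∏ v ∈ T, v.asIdeal = ∏ v ∈ T', v.asIdeal) : T ⊆ T' := by
  intro v hv
  have h1 : v.asIdeal ∣ ∏ w ∈ T', w.asIdeal := by
    rw [← h]
    exact Finset.dvd_prod_of_mem (fun w : HeightOneSpectrum (𝓞 F) => w.asIdeal) hv
  obtain ⟨w, hw, hvw⟩ := (Prime.dvd_finsetProd_iff v.prime _).1 h1
  have h2 : w.asIdeal ≤ v.asIdeal := Ideal.le_of_dvd hvw
  have h3 : w.asIdeal = v.asIdeal := w.isMaximal.eq_of_le v.isPrime.ne_top h2
  have h4 : w = v := HeightOneSpectrum.ext h3
  rwa [← h4]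

end PR3

theorem pPR3 (h1 : S_PR1) (h2 : S_PR2) : S_PR3 := by
  intro F _ _
  classical
  obtain ⟨p1, p2⟩ := h1 F
  obtain ⟨C, hC1, hC⟩ := h2 F
  refine ⟨p1, p2, 2 * Real.exp 1 * (Real.log C + 1), ?_⟩
  intro x S hS
  set l : ℝ := Real.log (x + 16) with hl
  have hx16 : (16 : ℝ) ≤ x + 16 := by have : (0 : ℝ) ≤ x := Nat.cast_nonneg x; linarith
  have hl0 : 2.7725 < l := by
    have a1 : Real.log 16 ≤ l := Real.log_le_log (by norm_num) hx16
    have a2 : Real.log 16 = 4 * Real.log 2 := by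
      rw [show (16 : ℝ) = 2 ^ 4 by norm_num, Real.log_pow]; norm_num
    have a3 := Real.log_two_gt_d9
    linarith
  have hll : 1 ≤ Real.log l := by
    rw [Real.le_log_iff_exp_le (by linarith)]
    have := Real.exp_one_lt_d9
    linarith
  have hlpos : 0 < l := by linarith
  set σ : ℝ := 1 + 1 / l with hσ
  have hinv : 0 < 1 / l := by positivity
  have hinv1 : 1 / l ≤ 1 := by
    rw [div_le_one hlpos]; linarith
  set u : HeightOneSpectrum (𝓞 F) → ℝ := fun v => (nm F v : ℝ) ^ (-σ) with hu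
  have hn : ∀ v, (2 : ℝ) ≤ nm F v := fun v => by exact_mod_cast p1 v
  have hu0 : ∀ v, 0 ≤ u v := fun v => Real.rpow_nonneg (by have := hn v; linarith) _
  have hu1 : ∀ v, u v ≤ 1 := fun v =>
    Real.rpow_le_one_of_one_le_of_nonpos (by have := hn v; linarith) (by linarith)
  have hterm : ∀ v ∈ S, 1 / (nm F v : ℝ) ≤ Real.exp 1 * u v := by
    intro v hv
    have b0 : (0 : ℝ) < nm F v := by have := hn v; linarith
    have b1 : (nm F v : ℝ) ≤ x + 16 := by
      have : (nm F v : ℝ) ≤ x := by exact_mod_cast hS v hv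
      linarith
    have b2 : (nm F v : ℝ) ^ (1 / l) ≤ Real.exp 1 := by
      rw [Real.rpow_def_of_pos b0]
      apply Real.exp_le_exp.2
      have b3 : Real.log (nm F v) ≤ l := Real.log_le_log b0 b1
      calc Real.log (nm F v) * (1 / l) ≤ l * (1 / l) := mul_le_mul_of_nonneg_right b3 hinv.le
        _ = 1 := by field_simp
    have b4 : 1 / (nm F v : ℝ) = (nm F v : ℝ) ^ (1 / l) * u v := by
      simp only [hu]
      rw [← Real.rpow_add b0, hσ]
      have : 1 / l + -(1 + 1 / l) = -1 := by ring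
      rw [this, Real.rpow_neg_one, one_div]
    rw [b4]
    exact mul_le_mul_of_nonneg_right b2 (hu0 v)
  -- the product
  have hprod : Real.exp (∑ v ∈ S, u v / 2) ≤ C * l := by
    have c1 : Real.exp (∑ v ∈ S, u v / 2) ≤ ∏ v ∈ S, (1 + u v) := by
      rw [Real.exp_sum]
      exact Finset.prod_le_prod (fun v _ => (Real.exp_pos _).le) fun v _ => PR3.exp_half_le (hu0 v) (hu1 v)
    have c2 : ∏ v ∈ S, (1 + u v) = ∑ T ∈ S.powerset, ∏ v ∈ T, u v := Finset.prod_one_add _
    have c3 : ∀ T : Finset (HeightOneSpectrum (𝓞 F)), ∏ v ∈ T, u v =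
        (Ideal.absNorm (∏ v ∈ T, v.asIdeal) : ℝ) ^ (-σ) := by
      intro T
      rw [map_prod, Nat.cast_prod, ← Real.finsetProd_rpow _ _ (fun v _ => Nat.cast_nonneg _)]
      rfl
    have c4 : ∑ T ∈ S.powerset, ∏ v ∈ T, u v =
        ∑ I ∈ S.powerset.image (fun T => ∏ v ∈ T, v.asIdeal), (Ideal.absNorm I : ℝ) ^ (-σ) := by
      rw [Finset.sum_image]
      · exact Finset.sum_congr rfl fun T _ => c3 T
      · intro T _ T' _ h
        exact Finset.Subset.antisymm (PR3.prod_inj F T T' h) (PR3.prod_inj F T' T h.symm)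
    have c5 := hC σ (by linarith) (by linarith) (S.powerset.image (fun T => ∏ v ∈ T, v.asIdeal)) (by
      intro I hI
      obtain ⟨T, _, rfl⟩ := Finset.mem_image.1 hI
      exact Finset.prod_ne_zero_iff.2 fun v _ => v.ne_bot)
    have c6 : C / (σ - 1) = C * l := by
      rw [hσ, add_sub_cancel_left]; field_simp
    rw [c6] at c5
    rw [c2, c4] at c1
    exact c1.trans c5
  have hsum : ∑ v ∈ S, u v ≤ 2 * (Real.log C + Real.log l) := by
    have d1 : ∑ v ∈ S, u v / 2 ≤ Real.log (C * l) := by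
      rw [Real.le_log_iff_exp_le (by positivity)]
      exact hprod
    rw [Real.log_mul (by linarith) (by linarith), ← Finset.sum_div] at d1
    linarith
  have hlogC : 0 ≤ Real.log C := Real.log_nonneg hC1
  calc ∑ v ∈ S, 1 / (nm F v : ℝ) ≤ ∑ v ∈ S, Real.exp 1 * u v := Finset.sum_le_sum hterm
    _ = Real.exp 1 * ∑ v ∈ S, u v := by rw [Finset.mul_sum]
    _ ≤ Real.exp 1 * (2 * (Real.log C + Real.log l)) := mul_le_mul_of_nonneg_left hsum (Real.exp_pos 1).le
    _ ≤ 2 * Real.exp 1 * (Real.log C + 1) * Real.log l := by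
      have e1 : Real.log C + Real.log l ≤ (Real.log C + 1) * Real.log l := by nlinarith
      have e2 : 0 < Real.exp 1 := Real.exp_pos 1
      nlinarith

end Pool.Agent.T2H86.RH
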