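import Pool.Agent.T2H86.RH.Stm
import Pool.Agent.T2H95.LF.QF
import Pool.Agent.T2H95.LF.HARM
import Pool.Agent.T2H95.LF.CHI

/-!
# RH package REP: polynomially many quadratic characters
-/

set_option autoImplicit false

namespace Pool.Agent.T2H86.RH

open Finset MeasureTheory ProbabilityTheory NumberField IsDedekindDomain
open Pool.Agent.T2H51.LQ (chiP)

namespace REP

open Classical in
/-- the character as a function of the ideals, zero outside of the primes -/
noncomputable def ch (F : Type) [Field F] [NumberField F] (D : 𝓞 F) (I : Ideal (𝓞 F)) : ℂ :=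
  if h : ∃ v : HeightOneSpectrum (𝓞 F), v.asIdeal = I then (chiP D h.choose : ℂ) else 0

lemma ch_prime (F : Type) [Field F] [NumberField F] (D : 𝓞 F) (v : HeightOneSpectrum (𝓞 F)) :
    ch F D v.asIdeal = (chiP D v : ℂ) := by
  unfold ch
  have h : ∃ w : HeightOneSpectrum (𝓞 F), w.asIdeal = v.asIdeal := ⟨v, rfl⟩
  rw [dif_pos h]
  have h2 : h.choose = v := HeightOneSpectrum.ext h.choose_spec
  rw [h2]

lemma ch_norm (F : Type) [Field F] [NumberField F] (D : 𝓞 F) (I : Ideal (𝓞 F)) :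
    ‖ch F D I‖ ≤ 1 := by
  unfold ch
  split_ifs with h
  · rw [Complex.norm_real, Real.norm_eq_abs]
    exact Pool.Agent.T2H95.LF.CHI.chiP_abs D _
  · simp

lemma ch_unit (F : Type) [Field F] [NumberField F] (u : (𝓞 F)ˣ) (D : 𝓞 F) :
    ch F ((u : 𝓞 F) ^ 2 * D) = ch F D := by
  funext I
  unfold ch
  split_ifs with h
  · rw [Pool.Agent.T2H95.LF.CHI.chiP_unit]
  · rfl

end REP

open REP in
theorem pREP : S_REP := by
  classical
  intro F _ _
  have hfam := Pool.Agent.T2H95.LF.pQF F (Pool.Agent.T2H95.LF.pHARM F) (ch F) (ch_norm F) (ch_unit F)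
  obtain ⟨A, a, hA⟩ := hfam.cnt
  refine ⟨A, a, fun Q => ?_⟩
  obtain ⟨hfin, hcard⟩ := hA Q
  rw [Set.ncard_eq_toFinset_card _ hfin] at hcard
  have hsel : ∀ f : hfin.toFinset, ∃ D : {D : 𝓞 F // D ≠ 0}, ch F D.1 = f.1 := by
    intro f
    obtain ⟨D, _, hD⟩ := hfin.mem_toFinset.1 f.2
    exact ⟨D, hD⟩
  choose sel hsel using hsel
  refine ⟨fun j => if h : j < hfin.toFinset.card then sel (hfin.toFinset.equivFin.symm ⟨j, h⟩)
    else ⟨1, one_ne_zero⟩, fun D hD => ?_⟩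
  have hmem : ch F D.1 ∈ hfin.toFinset := hfin.mem_toFinset.2 ⟨D, hD, rfl⟩
  refine ⟨(hfin.toFinset.equivFin ⟨ch F D.1, hmem⟩ : Fin _).1,
    le_trans (hfin.toFinset.equivFin ⟨ch F D.1, hmem⟩).2.le hcard, ?_⟩
  have h1 : ch F D.1 = ch F (sel (hfin.toFinset.equivFin.symm
      (hfin.toFinset.equivFin ⟨ch F D.1, hmem⟩))).1 := by
    rw [hsel, Equiv.symm_apply_apply]
  beta_reduce
  rw [dif_pos (hfin.toFinset.equivFin ⟨ch F D.1, hmem⟩).2]
  funext v
  have h2 := congrFun h1 v.asIdeal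
  rw [ch_prime, ch_prime] at h2
  exact_mod_cast h2

end Pool.Agent.T2H86.RH
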