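import Pool.Agent.T2H86.RH.Stm

/-! # Package WTD of project RH: decreasing weights -/

set_option autoImplicit false

namespace Pool.Agent.T2H86.RH

open Finset Pool.Agent.T2H86.RC

namespace WTD

/-- summation by parts -/
lemma parts (s t : ℕ → ℂ) (V : ℕ → ℝ) (hV : Antitone V) (hV0 : ∀ n, 0 ≤ V n) (hV1 : ∀ n, V n ≤ 1)
    (h0 : s 0 = 0) (h0' : t 0 = 0) (h : ∀ n, t (n + 1) - t n = V (n + 1) * (s (n + 1) - s n))
    (M : ℝ) (N : ℕ) (hM : ∀ n, n ≤ N → ‖s n‖ ≤ M) : ‖t N‖ ≤ M := by
  have hM0 : 0 ≤ M := (norm_nonneg _).trans (hM 0 (Nat.zero_le _))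
  have key : ∀ n, n ≤ N → ‖t n - V n * s n‖ ≤ M * (V 0 - V n) := by
    intro n
    induction n with
    | zero => intro _; rw [h0, h0']; simp
    | succ n ih =>
        intro hn
        have h1 := ih (by omega)
        have h2 : t (n + 1) - V (n + 1) * s (n + 1) =
            (t n - V n * s n) + ((V n - V (n + 1) : ℝ) : ℂ) * s n := by
          push_cast
          linear_combination h n
        rw [h2]
        have h3 := hM n (by omega)
        have h4 : 0 ≤ V n - V (n + 1) := sub_nonneg.2 (hV (Nat.le_succ n))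
        have h5 : ‖((V n - V (n + 1) : ℝ) : ℂ) * s n‖ ≤ (V n - V (n + 1)) * M := by
          rw [norm_mul, Complex.norm_real, Real.norm_of_nonneg h4]
          exact mul_le_mul_of_nonneg_left h3 h4
        calc ‖(t n - V n * s n) + ((V n - V (n + 1) : ℝ) : ℂ) * s n‖ ≤ _ := norm_add_le _ _
          _ ≤ M * (V 0 - V n) + (V n - V (n + 1)) * M := add_le_add h1 h5
          _ = M * (V 0 - V (n + 1)) := by ring
  have h1 := key N le_rfl
  have h2 : ‖(V N : ℂ) * s N‖ ≤ V N * M := by
    rw [norm_mul, Complex.norm_real, Real.norm_of_nonneg (hV0 N)]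
    exact mul_le_mul_of_nonneg_left (hM N le_rfl) (hV0 N)
  have h3 : ‖t N‖ ≤ ‖t N - V N * s N‖ + ‖(V N : ℂ) * s N‖ := by
    have := norm_add_le (t N - V N * s N) (V N * s N)
    rwa [sub_add_cancel] at this
  have h4 : M * (V 0 - V N) + V N * M ≤ M := by
    have := mul_le_mul_of_nonneg_left (hV1 0) hM0
    nlinarith
  linarith

end WTD

open WTD in
theorem pWTD (hFIN : S_FIN) : S_WTD := by
  classical
  intro P q hq lam χ V hV hV01 N t M hM
  obtain ⟨hfin, -, hpos, -⟩ := hFIN q hq
  have hcs : ∀ (l : (P →₀ ℕ) → ℂ) (x : ℕ), centralSum q l χ x t =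
      ∑ n ∈ (hfin x).toFinset,
        l n * (chi χ n : ℂ) * (norm q n : ℂ) ^ (-(1 / 2 : ℂ) - t * Complex.I) := by
    intro l x
    exact finsum_mem_eq_finite_toFinset_sum
      (fun n : P →₀ ℕ => l n * (chi χ n : ℂ) * (norm q n : ℂ) ^ (-(1 / 2 : ℂ) - t * Complex.I))
      (hfin x)
  have hzero : (hfin 0).toFinset = ∅ := by
    ext n
    rw [Set.Finite.mem_toFinset]
    constructor
    · intro h
      have h1 : norm q n ≤ 0 := h
      have h2 := hpos n
      omega
    · intro h
      simp at h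
  have hsucc : ∀ (f : (P →₀ ℕ) → ℂ) (x : ℕ),
      ∑ n ∈ (hfin (x + 1)).toFinset, f n - ∑ n ∈ (hfin x).toFinset, f n =
        ∑ n ∈ (hfin (x + 1)).toFinset.filter (fun n => norm q n = x + 1), f n := by
    intro f x
    rw [← Finset.sum_filter_add_sum_filter_not (hfin (x + 1)).toFinset (fun n => norm q n = x + 1)]
    have h : (hfin (x + 1)).toFinset.filter (fun n => ¬ norm q n = x + 1) = (hfin x).toFinset := by
      ext n
      simp only [Finset.mem_filter, Set.Finite.mem_toFinset, Set.mem_setOf_eq]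
      omega
    rw [h]
    ring
  refine parts (fun n => centralSum q lam χ n t)
    (fun n => centralSum q (fun n => lam n * (V (norm q n) : ℂ)) χ n t) V hV
    (fun n => (hV01 n).1) (fun n => (hV01 n).2) ?_ ?_ ?_ M N hM
  · simp only [hcs, hzero, Finset.sum_empty]
  · simp only [hcs, hzero, Finset.sum_empty]
  · intro n
    simp only [hcs]
    rw [hsucc, hsucc, Finset.mul_sum]
    refine Finset.sum_congr rfl fun m hm => ?_
    rw [(Finset.mem_filter.1 hm).2]
    ring

end Pool.Agent.T2H86.RH
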