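import Pool.Agent.T2H86.RC.FIN
import Pool.Agent.T2H86.RC.MUL
import Pool.Agent.T2H86.RC.BOX
import Pool.Agent.T2H86.RC.PRD
import Pool.Agent.T2H86.RC.EXC
import Pool.Agent.T2H86.RC.MON
import Pool.Agent.T2H86.RC.POL
import Pool.Agent.T2H86.RC.LIP
import Pool.Agent.T2H86.RC.MEA
import Pool.Agent.T2H86.RG.IMP
import Pool.Agent.T2H86.RG.LO3
import Pool.Agent.T2H86.RG.SU3
import Pool.Agent.T2H86.RG.BC3
import Pool.Agent.T2H86.RH.MO4

import Pool.Agent.T2H86.RH.PR1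
import Pool.Agent.T2H86.RH.PR2
import Pool.Agent.T2H86.RH.PR3
import Pool.Agent.T2H86.RH.MDL
import Pool.Agent.T2H86.RH.WTD
import Pool.Agent.T2H86.RH.REP
import Pool.Agent.T2H86.RH.BC4
import Pool.Agent.T2H86.RH.LN4

/-!
# Assembly of project RH
-/

set_option autoImplicit false
namespace Pool.Agent.T2H86.RH

open Finset MeasureTheory ProbabilityTheory NumberField IsDedekindDomain Pool.Agent.T2H86.RC Pool.Agent.T2H86.RG
open Pool.Agent.T2H51.LQ (chiP)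

theorem chiP_abs {F : Type} [Field F] [NumberField F] (D : 𝓞 F) (v : HeightOneSpectrum (𝓞 F)) :
    |chiP D v| ≤ 1 := by
  unfold chiP
  split_ifs <;> simp

/-- the form with `Q`, for the plain sums -/
theorem plain (F : Type) [Field F] [NumberField F] {Ω : Type} [MeasurableSpace Ω] (μ : Measure Ω)
    [IsProbabilityMeasure μ] (X : HeightOneSpectrum (𝓞 F) → Ω → ℝ) (hX : Model μ X)
    (lam : (HeightOneSpectrum (𝓞 F) →₀ ℕ) → ℂ) (hlam : Coeffs (nm F) lam) :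
    ∀ᵐ ω ∂μ, ∃ C : ℝ, ∀ Q : ℕ, 3 ≤ Q → ∀ D : 𝓞 F, D ≠ 0 → Ideal.absNorm (Ideal.span {D}) ≤ Q →
      ∀ N : ℕ, 1 ≤ N → N ≤ Q → ∀ t : ℝ, |t| ≤ (Q : ℝ) →
      ‖centralSum (nm F) lam (fun v => X v ω * chiP D v) N t‖ ≤
        Real.exp (C * Real.sqrt (Real.log Q * Real.log (Real.log Q))) := by
  have hq : Primes (nm F) := (pPR3 pPR1 pPR2) F
  have hq' : PrimeSystem (nm F) := pIMP.1 _ hq
  have hlam' : CoeffSystem (nm F) lam := pIMP.2 _ lam hlam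
  have hMO4 : S_MO4 := pMO4 pFIN pMUL pBOX pPRD (pMON (pEXC pPRD)) pIMP pLO3 pSU3
  have hLIP : S_LIP := pLIP pFIN (pPOL pFIN pMUL pBOX)
  obtain ⟨K, hK, hK1⟩ := hLIP (nm F) hq' lam hlam'
  obtain ⟨C, hC, hC1⟩ := hMO4 (nm F) hq lam hlam
  obtain ⟨A, a, hAa⟩ := pREP F
  have key := (pBC4 pBC3) μ (fun (D : {D : 𝓞 F // D ≠ 0}) (N : ℕ) (t : ℝ) (ω : Ω) =>
      centralSum (nm F) lam (fun v => X v ω * chiP D.1 v) N t)
    (fun D => Ideal.absNorm (Ideal.span {D.1}))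
    (fun D N t => pMEA pFIN μ (fun v ω => X v ω * chiP D.1 v)
      (pMDL μ X hX _ (chiP_abs D.1)) (nm F) hq' lam N t)
    ⟨C, hC, fun D k N hk hN t => hC1 μ _ (pMDL μ X hX _ (chiP_abs D.1)) k N hk hN t⟩
    ⟨K, hK, fun D N hN ω => hK1 (fun v => X v ω * chiP D.1 v) (fun v => by
      rw [abs_mul]
      exact mul_le_one₀ (hX.bdd v ω) (abs_nonneg _) (chiP_abs D.1 v)) N hN⟩
    ⟨A, a, fun Q => by
      obtain ⟨rep, hrep⟩ := hAa Q
      refine ⟨rep, fun D hD => ?_⟩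
      obtain ⟨j, hj, hj1⟩ := hrep D hD
      refine ⟨j, hj, ?_⟩
      funext N t ω
      simp only [hj1]⟩
  filter_upwards [key] with ω hω
  obtain ⟨C2, hC2⟩ := hω
  exact ⟨C2, fun Q hQ D hD hDQ N hN hNQ t ht => hC2 Q hQ ⟨D, hD⟩ hDQ N hN hNQ t ht⟩

theorem cs_zero {P : Type} (q : P → ℕ) (hq : PrimeSystem q) (lam : (P →₀ ℕ) → ℂ) (χ : P → ℝ) (t : ℝ) :
    centralSum q lam χ 0 t = 0 := by
  unfold centralSum
  have h : ∀ n : P →₀ ℕ, ¬ norm q n ≤ 0 := fun n hn => by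
    have := (pFIN q hq).2.2.1 n
    omega
  simp [h]

/-- the form with `Q`, for all weights -/
theorem weighted (F : Type) [Field F] [NumberField F] {Ω : Type} [MeasurableSpace Ω] (μ : Measure Ω)
    [IsProbabilityMeasure μ] (X : HeightOneSpectrum (𝓞 F) → Ω → ℝ) (hX : Model μ X)
    (lam : (HeightOneSpectrum (𝓞 F) →₀ ℕ) → ℂ) (hlam : Coeffs (nm F) lam) :
    ∀ᵐ ω ∂μ, ∃ C : ℝ, ∀ (Q : ℕ) (D : 𝓞 F) (N : ℕ) (t : ℝ) (V : ℕ → ℝ), 3 ≤ Q → D ≠ 0 →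
      Ideal.absNorm (Ideal.span {D}) ≤ Q → N ≤ Q → |t| ≤ (Q : ℝ) → Antitone V →
      (∀ n, 0 ≤ V n ∧ V n ≤ 1) →
      ‖centralSum (nm F) (fun n => lam n * (V (norm (nm F) n) : ℂ)) (fun v => X v ω * chiP D v) N t‖ ≤
        Real.exp (C * Real.sqrt (Real.log Q * Real.log (Real.log Q))) := by
  have hq' : PrimeSystem (nm F) := pIMP.1 _ ((pPR3 pPR1 pPR2) F)
  filter_upwards [plain F μ X hX lam hlam] with ω hω
  obtain ⟨C, hC⟩ := hω
  refine ⟨C, fun Q D N t V hQ hD hDQ hNQ ht hV hV1 => ?_⟩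
  refine (pWTD pFIN) (nm F) hq' lam _ V hV hV1 N t _ fun n hn => ?_
  rcases Nat.eq_zero_or_pos n with h0 | h0
  · rw [h0, cs_zero (nm F) hq', norm_zero]
    exact (Real.exp_pos _).le
  · exact hC Q hQ D hD hDQ n h0 (hn.trans hNQ) t ht

end Pool.Agent.T2H86.RH
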