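import Pool.Agent.T2H86.RH.Stm

set_option autoImplicit false

namespace Pool.Agent.T2H86.RH

open Finset MeasureTheory ProbabilityTheory NumberField IsDedekindDomain Pool.Agent.T2H86.RC Pool.Agent.T2H86.RG

namespace PR1

theorem two_le (F : Type) [Field F] [NumberField F] (v : HeightOneSpectrum (𝓞 F)) : 2 ≤ nm F v := by
  unfold nm
  have h0 : Ideal.absNorm v.asIdeal ≠ 0 := by
    intro h
    exact v.ne_bot (Ideal.absNorm_eq_zero_iff.mp h)
  have h1 : Ideal.absNorm v.asIdeal ≠ 1 := by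
    intro h
    exact v.isPrime.ne_top (Ideal.absNorm_eq_one_iff.mp h)
  omega

theorem fin (F : Type) [Field F] [NumberField F] (x : ℕ) :
    {v : HeightOneSpectrum (𝓞 F) | nm F v ≤ x}.Finite := by
  have h : {I : Ideal (𝓞 F) | Ideal.absNorm I ≤ x}.Finite := Ideal.finite_setOfPred_absNorm_le x
  refine Set.Finite.of_finite_image (f := fun v : HeightOneSpectrum (𝓞 F) => v.asIdeal) (h.subset ?_) ?_
  · rintro _ ⟨v, hv, rfl⟩
    exact hv
  · intro v _ w _ hvw
    exact HeightOneSpectrum.ext hvw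

end PR1

theorem pPR1 : S_PR1 := fun F _ _ => ⟨PR1.two_le F, PR1.fin F⟩

end Pool.Agent.T2H86.RH
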