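import Pool.Agent.T2H86.RG.Stm
import Pool.Agent.T2H51.LQ.Defs

/-!
Project RH (MP_21d687_nt, HARD; addition to the running project RG, which is landed). THEOREM. Let `F` be a number
field and `π` given (coefficients `lam` as in RG). For almost every random real completely multiplicative `X` the
bound of Q1 holds for `π ⊗ X` and ALL quadratic twists `χ_D` at once. Independent packages; the deps are hypotheses
of the package theorem. File `Pool/Agent/T2H86/RH/<ID>.lean`: `import Pool.Agent.T2H86.RH.Stm`,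
`namespace Pool.Agent.T2H86.RH`, `theorem p<ID> (h : S_dep) .. : S_<ID>`; own lemmas in a namespace `<ID>`.
-/

set_option autoImplicit false

namespace Pool.Agent.T2H86.RH

open Finset MeasureTheory ProbabilityTheory NumberField IsDedekindDomain Pool.Agent.T2H86.RC Pool.Agent.T2H86.RG
open Pool.Agent.T2H51.LQ (chiP)

/-- The norm of a prime ideal of the ring of integers of `F`. -/
noncomputable def nm (F : Type) [Field F] [NumberField F] (v : HeightOneSpectrum (𝓞 F)) : ℕ :=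
  Ideal.absNorm v.asIdeal

/-- PR1 (15 minutes, no deps). Use `Ideal.finite_setOfPred_absNorm_le`, `v.isPrime.ne_top`, `v.ne_bot`,
`HeightOneSpectrum.ext`. -/
def S_PR1 : Prop := ∀ (F : Type) [Field F] [NumberField F],
  (∀ v, 2 ≤ nm F v) ∧ ∀ x : ℕ, {v | nm F v ≤ x}.Finite

/-- PR2 (20 minutes, no deps; import `Pool.Agent.T2H95.LF.HARM`: `pHARM F` gives `#(ball F N) ≤ C N`).
Sort the ideals `I` by `i = Nat.log 2 (absNorm I)`: there are at most `C 2^(i+1)` of them and each has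
`(absNorm I)^(-σ) ≤ 2^(-i σ)`, so the sum is at most `2 C ∑ r^i ≤ 2 C / (1 - r)`, `r = 2^(-(σ - 1))`, and
`1 - r ≥ (σ - 1) / 2` for `1 < σ ≤ 2` by convexity. -/
def S_PR2 : Prop := ∀ (F : Type) [Field F] [NumberField F], ∃ C : ℝ, 1 ≤ C ∧ ∀ σ : ℝ, 1 < σ → σ ≤ 2 →
  ∀ T : Finset (Ideal (𝓞 F)), (∀ I ∈ T, I ≠ ⊥) →
  ∑ I ∈ T, (Ideal.absNorm I : ℝ) ^ (-σ) ≤ C / (σ - 1)

/-- PR3 (20 minutes, deps PR1 PR2). Only `recip` needs a proof: for a finite set `S` of primes of norm at most `x`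
put `l = log (x + 16) > 2`, `σ = 1 + 1/l`. Then `1 / N v ≤ e (N v)^(-σ)`, and with `u_v = (N v)^(-σ) ∈ [0, 1]`,
`exp (∑ u_v / 2) ≤ ∏ (1 + u_v) = ∑_{T ⊆ S} (absNorm (∏_{v ∈ T} v.asIdeal))^(-σ) ≤ C l` by PR2, because
`T ↦ ∏_{v ∈ T} v.asIdeal` is injective (a prime of the product is one of the factors: `Ideal.IsPrime.prod_le` or
`Prime.dvd_finset_prod_iff`, and maximal ideals with `v ≤ w` are equal). So `∑ 1 / N v ≤ 2 e log (C l) ≤ C' log l`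
(`log l ≥ 1`). -/
def S_PR3 : Prop := ∀ (F : Type) [Field F] [NumberField F], Primes (nm F)

/-- MO4 (mine): the moment bound of RG with a constant that does not depend on the model. -/
def S_MO4 : Prop := ∀ {P : Type} (q : P → ℕ), Primes q → ∀ lam : (P →₀ ℕ) → ℂ, Coeffs q lam →
  ∃ C : ℝ, 0 ≤ C ∧ ∀ {Ω : Type} [MeasurableSpace Ω] (μ : Measure Ω) [IsProbabilityMeasure μ]
  (X : P → Ω → ℝ), Model μ X → ∀ (k x : ℕ), 1 ≤ k → 1 ≤ x → ∀ t : ℝ,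
  ∫ ω, ‖centralSum q lam (fun p => X p ω) x t‖ ^ (2 * k) ∂μ ≤
    Real.exp (C * (k : ℝ) ^ 2 * Real.log (Real.log (x + 16)))

/-- MDL (10 minutes, no deps). `iIndepFun.comp`; the symmetry by `Measure.map_map`. -/
def S_MDL : Prop := ∀ {P Ω : Type} [MeasurableSpace Ω] (μ : Measure Ω) [IsProbabilityMeasure μ]
  (X : P → Ω → ℝ), Model μ X → ∀ χ : P → ℝ, (∀ p, |χ p| ≤ 1) → Model μ (fun p ω => X p ω * χ p)

/-- WTD (20 minutes, dep FIN of RC). Summation by parts: `Pool.Agent.T2H95.LF.CHI.parts` (import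
`Pool.Agent.T2H95.LF.CHI`) with `s n`, `t n` the two central sums of length `n`; compare `CHI.weighted` and
`CHI.sum_succ` there. Turn the `finsum` into a sum over the finite set `(hfin N).toFinset` as in
`Pool/Agent/T2H86/RG/MO3.lean` (`hcs`). -/
def S_WTD : Prop := ∀ {P : Type} (q : P → ℕ), PrimeSystem q → ∀ (lam : (P →₀ ℕ) → ℂ) (χ : P → ℝ) (V : ℕ → ℝ),
  Antitone V → (∀ n, 0 ≤ V n ∧ V n ≤ 1) → ∀ (N : ℕ) (t M : ℝ),
  (∀ n, n ≤ N → ‖centralSum q lam χ n t‖ ≤ M) →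
  ‖centralSum q (fun n => lam n * (V (norm q n) : ℂ)) χ N t‖ ≤ M

/-- REP (15 minutes, no deps; import `Pool.Agent.T2H95.LF.QF`, `HARM` and `CHI`). Apply `pQF F (pHARM F)` to
`χ D I = chiP D v` if `I = v.asIdeal` for a (unique) `v`, and `0` for the other `I` (`CHI.chiP_unit`,
`CHI.chiP_abs`); `Fam.cnt` says that there are at most `A Q^a` different functions `χ D`, `D ≠ 0`,
`|N(D)| ≤ Q`; enumerate them (for no `D` take `rep j = 1`) and choose a `D` for each. -/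
def S_REP : Prop := ∀ (F : Type) [Field F] [NumberField F], ∃ A a : ℕ, ∀ Q : ℕ,
  ∃ rep : ℕ → {D : 𝓞 F // D ≠ 0}, ∀ D : {D : 𝓞 F // D ≠ 0}, Ideal.absNorm (Ideal.span {D.1}) ≤ Q →
  ∃ j ≤ A * Q ^ a, chiP D.1 = chiP (rep j).1

/-- BC4 (20 minutes, dep BC3 of RG). Apply BC3 to `F x t ω = G (rep Q j) (max N 1) t ω`, where
`x = Nat.pair Q (Nat.pair j N)` (`Nat.unpair`). One has `Q ≤ x`, `N ≤ x`, so the moment bound and the Lipschitz
bound hold with `x` in place of `max N 1 ≤ x` (for `x ≥ 1`), and for `j ≤ A Q^a`, `N ≤ Q`, `Q ≥ 3` one has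
`x < (max Q ((max j N + 1)^2) + 1)^2 ≤ Q^b` with `b` depending on `A`, `a` only (`Nat.pair_lt_max_add_one_sq`), so that
`log x ≤ b log Q` and `log log x ≤ log b + log log Q ≤ C' log log Q` (`log log 3 > 0`). Use BC3 with its `A = 1`
(`|t| ≤ Q ≤ x`). -/
def S_BC4 : Prop := ∀ {Ω ι : Type} [MeasurableSpace Ω] (μ : Measure Ω) [IsProbabilityMeasure μ]
  (G : ι → ℕ → ℝ → Ω → ℂ) (cd : ι → ℕ), (∀ i N t, Measurable (G i N t)) →
  (∃ C : ℝ, 0 ≤ C ∧ ∀ (i : ι) (k N : ℕ), 1 ≤ k → 1 ≤ N → ∀ t : ℝ,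
    ∫ ω, ‖G i N t ω‖ ^ (2 * k) ∂μ ≤ Real.exp (C * (k : ℝ) ^ 2 * Real.log (Real.log (N + 16)))) →
  (∃ K : ℝ, 0 ≤ K ∧ ∀ (i : ι) (N : ℕ), 1 ≤ N → ∀ ω,
    (∀ t t' : ℝ, ‖G i N t ω - G i N t' ω‖ ≤ K * (N : ℝ) ^ 5 * |t - t'|) ∧
    ∀ t : ℝ, ‖G i N t ω‖ ≤ K * (N : ℝ) ^ 5) →
  (∃ A a : ℕ, ∀ Q : ℕ, ∃ rep : ℕ → ι, ∀ i, cd i ≤ Q → ∃ j ≤ A * Q ^ a, G i = G (rep j)) →
  ∀ᵐ ω ∂μ, ∃ C : ℝ, ∀ Q : ℕ, 3 ≤ Q → ∀ i, cd i ≤ Q → ∀ N : ℕ, 1 ≤ N → N ≤ Q → ∀ t : ℝ, |t| ≤ (Q : ℝ) →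
    ‖G i N t ω‖ ≤ Real.exp (C * Real.sqrt (Real.log Q * Real.log (Real.log Q)))

/-- LN4 (15 minutes, no deps). `Q = ⌈3 d^m⌉`, `m = max A 1`, and `√(L log L) = o(L)`; adapt
`Pool/Agent/T2H95/LF/LIN.lean` (its lemma `LIN.sqrt_llog` may be imported). -/
def S_LN4 : Prop := ∀ C A β : ℝ, 0 < A → 0 < β → ∃ C' : ℝ, ∀ d : ℕ, 1 ≤ d → ∃ Q : ℕ, 3 ≤ Q ∧ d ≤ Q ∧
  (d : ℝ) ^ A ≤ Q ∧
  Real.exp (C * Real.sqrt (Real.log Q * Real.log (Real.log Q))) ≤ C' * (d : ℝ) ^ β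

end Pool.Agent.T2H86.RH
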